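import Mathlib
import Pool.Agent.X181.Horo

/-!
# MP_f74330_gt: for `m = 1` there is a real hypersurface of `SU(2,m)/S(U(2) × U(m))` whose
structure vector field `ξ` lies in a `(κ,μ,ν)_i`-nullity distribution
-/

namespace Pool.Agent.Results.MP_f74330_gt.HorosphereCH2

open Pool.Agent.X181 Pool.Agent.X181.Horo Matrix
open scoped ContDiff Matrix.Norms.Elementwise

/-- There are a real hypersurface `f : ℂ × ℝ → SU(2,1)/S(U(2) × U(1))` (a horosphere, globally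
defined and injectively immersed) with unit normal `N`, Levi-Civita connection `Γ`, shape
operator `A`, a smooth frame `J = (J₁, J₂, J₃)` of the quaternionic Kähler structure along it
(`J i X = X Q_i - Q_i X`), the structures `(ξ, φ)` and `(ξ₁, φ₁)` induced by the Kähler
structure and by `J₁`, such that with `κ = -1`, `μ = -2`, `ν = 0`
`R(X,Y)ξ = η₁(Y)(κX + μAX + νφ₁AX) - η₁(X)(κY + μAY + νφ₁AY)` for all `X, Y` at all points. -/
theorem result : ∃ (f N : ℂ × ℝ → Mat 1) (Γ : ℂ × ℝ → (ℂ × ℝ) →L[ℝ] (ℂ × ℝ) →L[ℝ] (ℂ × ℝ))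
    (A : ℂ × ℝ → (ℂ × ℝ) →ₗ[ℝ] (ℂ × ℝ)) (ξ : ℂ × ℝ → ℂ × ℝ)
    (φ : ℂ × ℝ → (ℂ × ℝ) →ₗ[ℝ] (ℂ × ℝ)) (Q : Fin 3 → ℂ × ℝ → Mat 1)
    (ξ₁ : ℂ × ℝ → ℂ × ℝ) (φ₁ : ℂ × ℝ → (ℂ × ℝ) →ₗ[ℝ] (ℂ × ℝ)) (κ μ ν : ℝ),
    IsHypersurface (-1) (Set.univ : Set (ℂ × ℝ)) f N ∧
    IsLeviCivita (Set.univ : Set (ℂ × ℝ)) (indMet (-1) f) Γ ∧
    IsShape (-1) (Set.univ : Set (ℂ × ℝ)) f N A ∧
    IsInduced (-1) (Set.univ : Set (ℂ × ℝ)) f N (fun x => Jop (f x)) ξ φ ∧
    (∀ i, ContDiff ℝ ∞ (Q i)) ∧ (∀ i x, IsSu (-1) (f x) (Q i x)) ∧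
    (∀ x, IsQFrame (-1) (f x) (fun i X => X * Q i x - Q i x * X)) ∧
    IsInduced (-1) (Set.univ : Set (ℂ × ℝ)) f N (fun x X => X * Q 0 x - Q 0 x * X) ξ₁ φ₁ ∧
    ∀ x X Y : ℂ × ℝ, Riem Γ x X Y (ξ x) =
      indMet (-1) f x Y (ξ₁ x) • (κ • X + μ • A x X + ν • φ₁ x (A x X))
      - indMet (-1) f x X (ξ₁ x) • (κ • Y + μ • A x Y + ν • φ₁ x (A x Y)) := by
  have hs : (-1 : ℝ) = 1 ∨ (-1 : ℝ) = -1 := Or.inr rfl
  have hM := f_hyp
  obtain ⟨⟨Γ, hΓ⟩, ⟨A, hA⟩, ⟨ξ, φ, hI⟩, h3⟩ := exists_all hs hM (J := JJ) (fun x _ => frame x)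
  obtain ⟨ξ₁, φ₁, hI₁⟩ := h3 0
  refine ⟨cj P0, cj N0, Γ, A, ξ, φ, fun i => cj (Q0 i), ξ₁, φ₁, -1, -2, 0, hM, hΓ, hA, hI,
    fun i => cj_smooth (Q0 i), ?_, frame, hI₁, ?_⟩
  · intro i x
    obtain ⟨Q, hQ, _⟩ := (frame x).mem i
    refine ⟨?_, ?_, ?_, ?_⟩
    · rw [cj_mul]; congr 1
      fin_cases i <;> simp only [Q0, P0, mk9_mul] <;> apply mk9_congr <;> simp
    · rw [cj_mul]; congr 1
      fin_cases i <;> simp only [Q0, P0, mk9_mul] <;> apply mk9_congr <;> simp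
    · have : (Q0 i)ᴴ * formI 1 (-1) = formI 1 (-1) * (-(Q0 i)) := by
        fin_cases i <;> simp only [Q0, mk9_form, mk9_conj, mk9_neg, mk9_mul] <;>
          apply mk9_congr <;> simp
      rw [cj_adj this, cj_neg, Matrix.mul_neg]
    · rw [cj_trace]
      fin_cases i <;> simp only [Q0, mk9_trace] <;> simp
  -- the structure vector fields
  have hξ : ∀ x, (ξ x).1 = 0 ∧ th x (ξ x) = -1 := by
    intro x
    have h1 := hI.xi x (Set.mem_univ x)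
    have h2 : Jop (cj P0 x) (cj N0 x) = cj (mk9 0 0 (-Complex.I) 0 0 0 (-Complex.I) 0 0) x := by
      unfold Jop
      rw [cj_mul, cj_mul, ← cj_sub, ← cj_smul]
      congr 1
      rw [P0, N0, mk9_mul, mk9_mul, mk9_sub, mk9_smul]
      apply mk9_congr <;> ring
    rw [h2, df_eq, ← cj_neg, mk9_neg] at h1
    have h4 := cj_inj h1
    have h5 := congrFun (congrFun h4 (Sum.inl 1)) (Sum.inr 0)
    have h6 := congrFun (congrFun h4 (Sum.inl 0)) (Sum.inr 0)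
    simp only [Mx, mk9, Matrix.of_apply] at h5 h6
    refine ⟨by simpa using h5, ?_⟩
    have h7 : Complex.I * (th x (ξ x) : ℂ) = Complex.I * ((-1 : ℝ) : ℂ) := by
      rw [Complex.ofReal_neg, Complex.ofReal_one]
      linear_combination -h6
    exact_mod_cast mul_left_cancel₀ Complex.I_ne_zero h7
  have hξ₁ : ∀ x, (ξ₁ x).1 = 0 ∧ th x (ξ₁ x) = -1 := by
    intro x
    have h1 := hI₁.xi x (Set.mem_univ x)
    have h2 : JJ 0 x (cj N0 x) = cj (mk9 0 0 (-Complex.I) 0 0 0 (-Complex.I) 0 0) x := by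
      unfold JJ
      rw [cj_mul, cj_mul, ← cj_sub]
      congr 1
      simp only [Q0]
      rw [N0, mk9_mul, mk9_mul, mk9_sub]
      apply mk9_congr <;> ring
    rw [h2, df_eq, ← cj_neg, mk9_neg] at h1
    have h4 := cj_inj h1
    have h5 := congrFun (congrFun h4 (Sum.inl 1)) (Sum.inr 0)
    have h6 := congrFun (congrFun h4 (Sum.inl 0)) (Sum.inr 0)
    simp only [Mx, mk9, Matrix.of_apply] at h5 h6
    refine ⟨by simpa using h5, ?_⟩
    have h7 : Complex.I * (th x (ξ₁ x) : ℂ) = Complex.I * ((-1 : ℝ) : ℂ) := by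
      rw [Complex.ofReal_neg, Complex.ofReal_one]
      linear_combination -h6
    exact_mod_cast mul_left_cancel₀ Complex.I_ne_zero h7
  intro x X Y
  have hx := Set.mem_univ x
  rw [← sub_eq_zero]
  apply nondeg hs hM hx
  intro W
  have lin : ∀ u v w : ℂ × ℝ, indMet (-1) (cj P0) x (u - v) w
      = indMet (-1) (cj P0) x u w - indMet (-1) (cj P0) x v w := by
    intro u v w; unfold indMet; rw [map_sub, met_sub_left]
  have lina : ∀ u v w : ℂ × ℝ, indMet (-1) (cj P0) x (u + v) w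
      = indMet (-1) (cj P0) x u w + indMet (-1) (cj P0) x v w := by
    intro u v w; unfold indMet; rw [map_add, met_add_left]
  have lins : ∀ (r : ℝ) (u w : ℂ × ℝ), indMet (-1) (cj P0) x (r • u) w
      = r * indMet (-1) (cj P0) x u w := by
    intro r u w; unfold indMet; rw [map_smul, met_smul_left]
  rw [lin, lin, gauss_hyp hM hΓ hx]
  simp only [zero_smul, add_zero]
  rw [lins, lins, lina, lina, lins, lins, lins, lins, hA x hx, hA x hx, h_eq, h_eq, g_eq, g_eq,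
    g_eq, g_eq]
  simp only [sff_eq hM hx, h_eq]
  have hS : ∀ u v, Sop (cj P0) x u v = cj (Mx x u * Mx x v + Mx x v * Mx x u) x := by
    intro u v
    unfold Sop
    rw [df_eq, df_eq, cj_mul, cj_mul, ← cj_add]
  rw [hS, hS, hS, hS, cj_met, cj_met]
  unfold met Mx
  simp only [mk9_mul, mk9_add, mk9_trace, (hξ x).1, (hξ x).2, (hξ₁ x).1, (hξ₁ x).2]
  simp
  ring

end Pool.Agent.Results.MP_f74330_gt.HorosphereCH2
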